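import Pool.Agent.H10.ABY.Stmts

/-!
# ABY, row MAY: sum over the dyadic ranges of the height
-/

set_option autoImplicit false

namespace Pool.ABY

open Finset Pool.Agent.H98.ABCR Pool.SHA

/-- the height of a triple is at least `1 / 2` -/
theorem half_le_hh (v : ℕ × ℕ) (hv : IsTri v) : 1 / 2 ≤ hh v := by
  have h1 : 2 ≤ v.1 + v.2 := by
    have := hv.1
    have := hv.2.1
    omega
  have h2 : Real.log 2 ≤ hh v := by
    unfold hh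
    apply Real.log_le_log (by norm_num)
    exact_mod_cast h1
  have h3 := Real.log_two_gt_d9
  linarith

/-- the dyadic range of a real number `h ≥ 1 / 2` -/
theorem dyadic_range (h H : ℝ) (h1 : 1 / 2 ≤ h) (h2 : h ≤ H) :
    ∃ j ∈ range (Nat.log 2 ⌊2 * H⌋₊ + 1), (2 : ℝ) ^ j / 2 ≤ h ∧ h ≤ 2 * ((2 : ℝ) ^ j / 2) := by
  have e1 : 1 ≤ ⌊2 * h⌋₊ := by
    rw [Nat.one_le_floor_iff]
    linarith
  refine ⟨Nat.log 2 ⌊2 * h⌋₊, ?_, ?_, ?_⟩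
  · rw [Finset.mem_range]
    have : Nat.log 2 ⌊2 * h⌋₊ ≤ Nat.log 2 ⌊2 * H⌋₊ :=
      Nat.log_mono_right (Nat.floor_mono (by linarith))
    omega
  · have e2 : 2 ^ Nat.log 2 ⌊2 * h⌋₊ ≤ ⌊2 * h⌋₊ := Nat.pow_log_le_self 2 (by omega)
    have e3 : ((2 ^ Nat.log 2 ⌊2 * h⌋₊ : ℕ) : ℝ) ≤ 2 * h :=
      le_trans (by exact_mod_cast e2) (Nat.floor_le (by linarith))
    push_cast at e3
    linarith
  · have e2 : ⌊2 * h⌋₊ < 2 ^ (Nat.log 2 ⌊2 * h⌋₊ + 1) :=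
      Nat.lt_pow_succ_log_self (by norm_num) _
    have e3 : ((⌊2 * h⌋₊ + 1 : ℕ) : ℝ) ≤ ((2 ^ (Nat.log 2 ⌊2 * h⌋₊ + 1) : ℕ) : ℝ) := by
      exact_mod_cast e2
    have e4 := Nat.lt_floor_add_one (2 * h)
    rw [Nat.cast_add, Nat.cast_one] at e3
    push_cast at e3
    rw [pow_succ] at e3
    linarith

/-- the number of dyadic ranges -/
theorem dyadic_num (H : ℝ) (hH : 1 ≤ H) :
    ((Nat.log 2 ⌊2 * H⌋₊ + 1 : ℕ) : ℝ) ≤ 2 * (1 + Real.log H) := by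
  have e1 : ⌊2 * H⌋₊ ≠ 0 := by
    have : 1 ≤ ⌊2 * H⌋₊ := by
      rw [Nat.one_le_floor_iff]
      linarith
    omega
  have e2 : 2 ^ Nat.log 2 ⌊2 * H⌋₊ ≤ ⌊2 * H⌋₊ := Nat.pow_log_le_self 2 e1
  have e3 : ((2 ^ Nat.log 2 ⌊2 * H⌋₊ : ℕ) : ℝ) ≤ 2 * H :=
    le_trans (by exact_mod_cast e2) (Nat.floor_le (by linarith))
  push_cast at e3
  have e4 := Real.log_le_log (by positivity) e3
  rw [Real.log_pow, Real.log_mul (by norm_num) (by linarith)] at e4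
  have e5 := Real.log_two_gt_d9
  have e6 : 0 ≤ Real.log H := Real.log_nonneg hH
  push_cast
  nlinarith

theorem may_thm (h1 : S_DYA) : S_MAY := by
  intro ε hε
  obtain ⟨C, hC, hD⟩ := h1 ε hε
  refine ⟨2 * C, by linarith, ?_⟩
  intro X Y H F hX hY hH hF
  classical
  have hcov : F ⊆ (range (Nat.log 2 ⌊2 * H⌋₊ + 1)).biUnion
      (fun j => F.filter (fun v => (2 : ℝ) ^ j / 2 ≤ hh v ∧ hh v ≤ 2 * ((2 : ℝ) ^ j / 2))) := by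
    intro v hv
    obtain ⟨p1, p2, p3, p4⟩ := hF v hv
    obtain ⟨j, q1, q2, q3⟩ := dyadic_range (hh v) H (half_le_hh v p1) p4
    rw [Finset.mem_biUnion]
    exact ⟨j, q1, Finset.mem_filter.mpr ⟨hv, q2, q3⟩⟩
  have e1 : F.card ≤ ∑ j ∈ range (Nat.log 2 ⌊2 * H⌋₊ + 1),
      (F.filter (fun v => (2 : ℝ) ^ j / 2 ≤ hh v ∧ hh v ≤ 2 * ((2 : ℝ) ^ j / 2))).card :=
    le_trans (Finset.card_le_card hcov) Finset.card_biUnion_le
  have e2 : (F.card : ℝ) ≤ ∑ j ∈ range (Nat.log 2 ⌊2 * H⌋₊ + 1),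
      ((F.filter (fun v => (2 : ℝ) ^ j / 2 ≤ hh v ∧ hh v ≤ 2 * ((2 : ℝ) ^ j / 2))).card : ℝ) := by
    exact_mod_cast e1
  have e3 : ∑ j ∈ range (Nat.log 2 ⌊2 * H⌋₊ + 1),
      ((F.filter (fun v => (2 : ℝ) ^ j / 2 ≤ hh v ∧ hh v ≤ 2 * ((2 : ℝ) ^ j / 2))).card : ℝ) ≤
      ∑ _j ∈ range (Nat.log 2 ⌊2 * H⌋₊ + 1), C * X ^ ε * Real.sqrt (X * Y) := by
    apply Finset.sum_le_sum
    intro j _
    apply hD X Y ((2 : ℝ) ^ j / 2) _ hX hY (by positivity)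
    intro v hv
    obtain ⟨hv1, q2, q3⟩ := Finset.mem_filter.mp hv
    obtain ⟨p1, p2, p3, p4⟩ := hF v hv1
    exact ⟨p1, p2, p3, q2, q3⟩
  rw [Finset.sum_const, Finset.card_range, nsmul_eq_mul] at e3
  have e4 := dyadic_num H hH
  have e5 : 0 ≤ C * X ^ ε * Real.sqrt (X * Y) := by positivity
  calc (F.card : ℝ) ≤ ((Nat.log 2 ⌊2 * H⌋₊ + 1 : ℕ) : ℝ) * (C * X ^ ε * Real.sqrt (X * Y)) :=
        le_trans e2 e3
    _ ≤ (2 * (1 + Real.log H)) * (C * X ^ ε * Real.sqrt (X * Y)) :=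
        mul_le_mul_of_nonneg_right e4 e5
    _ = 2 * C * X ^ ε * Real.sqrt (X * Y) * (1 + Real.log H) := by ring

end Pool.ABY
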